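import Mathlib
import Pool.Agent.Q199.HC.Fin

/-!
# An irreducible split crystallographic group which is not homogeneous

Let `T` be the root lattice `A_4`, that is, the vectors in `ℤ⁵` with sum zero, let `S_5` permute the
coordinates, and let `G = T ⋊ (S_5 × {±1})`, a crystallographic group of dimension 4. Let `f` be a
5-cycle, `r` the root `e_1 - e_0` and `u = (r, f)`, `v = (2r, f)`, two elements of order 5.

* `u` and `v` have the same type. Let `ℤ*` be a nonprincipal ultrapower of `ℤ`. Splitting off the
  divisible part of `ℤ*` one gets an additive automorphism `ψ` of `ℤ*` with `ψ(1) = 2 + 5 m`. It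
  acts on the coordinates of `T* ⋊ (S_5 × {±1})`, the ultrapower of `G`, and maps `u` to
  `((2 + 5 m) r, f)`, which is conjugate to `v` by a translation, because `5 T ⊆ (1 - f) T`.
* No automorphism `α` of `G` maps `u` to `v`. The restriction `φ` of `α` to `T` normalizes the point
  group; by the computation of inner products of roots it is an isometry, and it commutes with `f`,
  so `φ(r)` is a root whose class in `T / (1 - f) T = ℤ/5` is `±1`. If `α(0, f) = (z, f)`, then the
  class of `z` is `0`, since `f` commutes with the central inversion. So the class of `α(u)` is `±1`
  and not `2`.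
-/

set_option autoImplicit false

namespace Pool.Agent.Results.MP_881be3_lc.NotHomogeneous

open Q199.HC

/-- There is an irreducible split crystallographic group (of dimension 4) which is not
homogeneous. -/
theorem result : ∃ G : Subgroup (Isom 4),
    IsCrystallographic 4 G ∧ IsSplit G ∧ IsIrreducible G ∧ ¬ IsHomogeneous G :=
  ⟨GG, isCrys, isSplit, isIrred, not_hom⟩

end Pool.Agent.Results.MP_881be3_lc.NotHomogeneous
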